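import Mathlib
import Pool.Agent.W610.UpExp
import Pool.Agent.W415.CE.Both

set_option autoImplicit false

/-!
# Maximal rank for general collisions: exponentially large multiplicities, every characteristic

For every algebraically closed field `k` of any characteristic, all `r ≥ 2 ^ 1000` and all `m ≥ 1`,
the subscheme of the plane with ideal
`(y - (a₀ + a₁ x + ... + a_(r-1) x ^ (r-1)), (x - c) ^ r) ^ m` imposes, for all `(c, a)` outside a
hypersurface, independent conditions on forms of degree `d`, or lies on no form of degree `d`, for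
all `d` with `d ≤ (1 - exp (-r ^ (1/10))) m √r` or `√r (m + 1) ≤ (1 - exp (-r ^ (1/10))) d`, and if
`m ≤ exp (r ^ (1/10) / 3)` for all `d` with `d < m √r` or `√r (m + 1) < d`.
-/

namespace Pool.Agent.Results.MP_e6aa12_ag.CollisionExponential

open Polynomial

universe u

/-- The forms of degree `d` in three variables whose dehomogenisation lies in the ideal
`(y - ∑ a_j x ^ j, (x - c) ^ r) ^ m` of `k[x][y]`. -/
noncomputable def forms {k : Type u} [Field k] {r : ℕ} (m : ℕ) (c : k) (a : Fin r → k) (d : ℕ) :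
    Submodule k (MvPolynomial (Fin 3) k) :=
  MvPolynomial.homogeneousSubmodule (Fin 3) k d ⊓
    (Submodule.restrictScalars k
      ((Ideal.span {X - C (∑ j : Fin r, C (a j) * X ^ (j : ℕ)), C ((X - C c) ^ r)} :
        Ideal k[X][X]) ^ m)).comap
      (MvPolynomial.aeval ![C X, X, 1] :
        MvPolynomial (Fin 3) k →ₐ[k] k[X][X]).toLinearMap

theorem result (k : Type u) [Field k] [IsAlgClosed k] (r : ℕ) (hr : 2 ^ 1000 ≤ r) (m : ℕ)
    (hm : 0 < m) :
    ∃ F : MvPolynomial (Fin (r + 1)) k, F ≠ 0 ∧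
      ∀ (c : k) (a : Fin r → k), MvPolynomial.eval (Fin.cons c a : Fin (r + 1) → k) F ≠ 0 →
        ∀ d : ℕ,
          ((d : ℝ) ≤ (1 - Real.exp (-(r : ℝ) ^ (1 / 10 : ℝ))) * (m * Real.sqrt r) ∨
            Real.sqrt r * (m + 1) ≤ (1 - Real.exp (-(r : ℝ) ^ (1 / 10 : ℝ))) * d ∨
            ((m : ℝ) ≤ Real.exp ((r : ℝ) ^ (1 / 10 : ℝ) / 3) ∧
              ((d : ℝ) < m * Real.sqrt r ∨ Real.sqrt r * (m + 1) < d))) →
          Module.finrank k ↥(forms m c a d) = Nat.choose (d + 2) 2 - r * Nat.choose (m + 1) 2 := by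
  have : Infinite k := IsAlgClosed.instInfinite
  obtain ⟨F, hF, hF'⟩ := Pool.Agent.W415.CE.coll_bothE (K := k)
    (fun _ _ hu hs hsu => Pool.Agent.W610.exists_up_exp hs hu hsu) hr hm
  exact ⟨F, hF, fun c a hc d hd => hF' c a hc d hd⟩

end Pool.Agent.Results.MP_e6aa12_ag.CollisionExponential
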